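import Pool.Agent.H238R3.Build294

set_option autoImplicit false

/-!
# Uniform Littlewood pairs with badly approximable entries

For every badly approximable `ζ` there is a badly approximable `ξ` with `D(ξ, ζ) > 0`.
-/

namespace Pool.Agent.Results.MP_294a04_nt.UniformLittlewoodBadPairs

open Pool.Agent.H238R3.Lines Pool.Agent.H238R3.Game Pool.Agent.H238R3.Fam

/-- distance to the nearest integer -/
noncomputable def nrm (x : ℝ) : ℝ := |x - (round x : ℝ)|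

/-- `m_Q(ξ, ζ)`, the minimum of `‖qξ‖‖qζ‖` over `1 ≤ q ≤ Q` -/
noncomputable def minProd (ξ ζ : ℝ) (Q : ℕ) : ℝ :=
  sInf ((fun q : ℕ => nrm ((q:ℝ) * ξ) * nrm ((q:ℝ) * ζ)) '' Set.Icc 1 Q)

/-- `D(ξ, ζ) = limsup Q m_Q(ξ, ζ)` -/
noncomputable def D (ξ ζ : ℝ) : ℝ :=
  Filter.limsup (fun Q : ℕ => (Q:ℝ) * minProd ξ ζ Q) Filter.atTop

/-- badly approximable numbers -/
def BadlyApproximable (ξ : ℝ) : Prop :=
  ∃ c : ℝ, 0 < c ∧ ∀ q : ℕ, 0 < q → c ≤ (q:ℝ) * nrm ((q:ℝ) * ξ)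

lemma nrm_nonneg (x : ℝ) : 0 ≤ nrm x := abs_nonneg _

lemma nrm_le_half (x : ℝ) : nrm x ≤ 1/2 := abs_sub_round x

lemma bounded (ξ ζ : ℝ) (Q : ℕ) : (Q:ℝ) * minProd ξ ζ Q ≤ 1 := by
  rcases Nat.eq_zero_or_pos Q with h | h
  · rw [h]; simp
  obtain ⟨k, hk0, hkQ, hk⟩ := Real.exists_nat_abs_mul_sub_round_le ξ h
  have h1 : minProd ξ ζ Q ≤ nrm ((k:ℝ) * ξ) * nrm ((k:ℝ) * ζ) := by
    refine csInf_le ⟨0, ?_⟩ ⟨k, ⟨hk0, hkQ⟩, rfl⟩
    rintro _ ⟨q, _, rfl⟩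
    exact mul_nonneg (nrm_nonneg _) (nrm_nonneg _)
  have h2 : nrm ((k:ℝ) * ξ) ≤ 1/((Q:ℝ)+1) := hk
  have h3 := nrm_le_half ((k:ℝ) * ζ)
  have hQ : (0:ℝ) < Q := by exact_mod_cast h
  calc (Q:ℝ) * minProd ξ ζ Q ≤ Q * (nrm ((k:ℝ) * ξ) * nrm ((k:ℝ) * ζ)) := by gcongr
    _ ≤ Q * (1/((Q:ℝ)+1) * 1) := by
        have := nrm_nonneg ((k:ℝ) * ζ)
        gcongr
        linarith
    _ ≤ 1 := by
        rw [mul_one, mul_one_div, div_le_one (by positivity)]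
        linarith

lemma D_pos (ξ ζ ε : ℝ) (hε : 0 < ε)
    (h : ∀ N : ℕ, ∃ Q : ℕ, N ≤ Q ∧ 0 < Q ∧ ∀ q : ℕ, 0 < q → q ≤ Q →
      ε ≤ (Q:ℝ) * (nrm ((q:ℝ) * ξ) * nrm ((q:ℝ) * ζ))) : 0 < D ξ ζ := by
  refine lt_of_lt_of_le hε ?_
  refine Filter.le_limsup_of_frequently_le ?_ ?_
  · rw [Filter.frequently_atTop]
    intro N
    obtain ⟨Q, hQ1, hQ0, hQ2⟩ := h N
    refine ⟨Q, hQ1, ?_⟩
    have hQr : (0:ℝ) < Q := by exact_mod_cast hQ0
    have h1 : ε / Q ≤ minProd ξ ζ Q := by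
      refine le_csInf ⟨_, ⟨1, ⟨le_rfl, hQ0⟩, rfl⟩⟩ ?_
      rintro _ ⟨q, ⟨hq1, hq2⟩, rfl⟩
      rw [div_le_iff₀ hQr]
      have := hQ2 q hq1 hq2
      simp only
      linarith
    rw [div_le_iff₀ hQr] at h1
    linarith
  · refine ⟨1, ?_⟩
    rw [Filter.eventually_map]
    exact Filter.Eventually.of_forall (fun Q => bounded ξ ζ Q)

lemma bad_int {ζ c : ℝ} (hc : ∀ q : ℕ, 0 < q → c ≤ (q:ℝ) * nrm ((q:ℝ) * ζ)) (q p : ℤ)
    (hq : q ≠ 0) : c ≤ |(q:ℝ)| * |(q:ℝ) * ζ - p| := by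
  have h1 := hc q.natAbs (Int.natAbs_pos.2 hq)
  have e1 : ((q.natAbs : ℕ) : ℝ) = |(q:ℝ)| := by rw [Nat.cast_natAbs]; push_cast; rfl
  rw [e1] at h1
  refine h1.trans (mul_le_mul_of_nonneg_left ?_ (abs_nonneg _))
  unfold nrm
  rcases le_or_gt 0 (q:ℝ) with h | h
  · rw [abs_of_nonneg h]
    exact round_le _ _
  · rw [abs_of_neg h]
    have := round_le (-(q:ℝ) * ζ) (-p)
    refine this.trans (le_of_eq ?_)
    rw [← abs_neg]
    congr 1
    push_cast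
    ring

theorem exists_of_bad (ζ : ℝ) (hζ : BadlyApproximable ζ) :
    ∃ ξ : ℝ, BadlyApproximable ξ ∧ 0 < D ξ ζ := by
  obtain ⟨c, hc0, hc⟩ := hζ
  have hδ0 : 0 < min c 1 := lt_min hc0 one_pos
  have hbad : ∀ q p : ℤ, q ≠ 0 → min c 1 ≤ |(q:ℝ)| * |(q:ℝ)*ζ - p| :=
    fun q p hq => (min_le_left _ _).trans (bad_int hc q p hq)
  obtain ⟨ξ, ε, C, hε, hC, hB, hP⟩ := exists_xi ζ (min c 1) hδ0 (min_le_right _ _) hbad
  refine ⟨ξ, ⟨1/2^39, by positivity, ?_⟩, D_pos ξ ζ ε hε ?_⟩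
  · intro q hq
    have hqr : (0:ℝ) < q := by exact_mod_cast hq
    set p : ℤ := round ((q:ℝ) * ξ) with hp
    obtain ⟨g, z, hg, hz, h1, h2, h3⟩ := exists_prim (q:ℤ) p 0 (by
      rintro ⟨h, _, _⟩
      omega)
    have hz3 : z.2.2 = 0 := by
      rcases mul_eq_zero.1 h3.symm with h | h
      · omega
      · exact h
    have hcop : IsCoprime z.1 z.2.1 := by
      obtain ⟨a, b, d, h⟩ := hz
      rw [hz3] at h
      exact ⟨a, b, by linarith⟩
    have hgr : (1:ℝ) ≤ (g:ℝ) := by exact_mod_cast hg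
    have hqg : (q:ℝ) = g * z.1 := by exact_mod_cast h1
    have hpg : (p:ℝ) = g * z.2.1 := by exact_mod_cast h2
    have hz1 : (0:ℝ) < z.1 := by
      by_contra hneg
      push Not at hneg
      nlinarith
    have hz1' : 0 < z.1 := by exact_mod_cast hz1
    have h4 := hB (z.1, z.2.1) hcop hz1'
    simp only [thB] at h4
    have h5 : nrm ((q:ℝ) * ξ) = q * |ξ - (z.2.1:ℝ)/z.1| := by
      unfold nrm
      rw [← hp, hpg, ← abs_of_pos hqr, ← abs_mul, abs_of_pos hqr, hqg]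
      congr 1
      field_simp
    rw [h5]
    calc (1:ℝ)/2^39 = (z.1:ℝ)^2 * (1/(2^39 * (z.1:ℝ)^2)) := by field_simp
      _ ≤ (q:ℝ)^2 * |ξ - (z.2.1:ℝ)/z.1| := by
          have h6 : (z.1:ℝ) ≤ q := by rw [hqg]; nlinarith
          gcongr
      _ = q * (q * |ξ - (z.2.1:ℝ)/z.1|) := by ring
  · intro N
    refine ⟨16^(C*5^N), ?_, by positivity, ?_⟩
    · have h1 : N < 5^N := Nat.lt_pow_self (by norm_num)
      have h2 : 5^N ≤ C*5^N := Nat.le_mul_of_pos_left _ hC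
      have h3 : C*5^N < 16^(C*5^N) := Nat.lt_pow_self (by norm_num)
      omega
    · intro q hq hqQ
      have hqr : (0:ℝ) < q := by exact_mod_cast hq
      have hQe : (((16^(C*5^N) : ℕ)):ℝ) = ((2:ℝ)^(C*5^N))^4 := by
        rw [Nat.cast_pow, ← pow_mul, mul_comm (C*5^N) 4, pow_mul (2:ℝ) 4]
        congr 1
        norm_num
      set p : ℤ := round ((q:ℝ) * ξ) with hp
      set p' : ℤ := round ((q:ℝ) * ζ) with hp'
      obtain ⟨g, z, hg, hz, h1, h2, h3⟩ := exists_prim (q:ℤ) p' p (by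
        rintro ⟨h, _, _⟩
        omega)
      have hgr : (1:ℝ) ≤ (g:ℝ) := by exact_mod_cast hg
      have hqg : (q:ℝ) = g * z.1 := by exact_mod_cast h1
      have hpg' : (p':ℝ) = g * z.2.1 := by exact_mod_cast h2
      have hpg : (p:ℝ) = g * z.2.2 := by exact_mod_cast h3
      have hz1 : (0:ℝ) < z.1 := by
        by_contra hneg
        push Not at hneg
        nlinarith
      have hz1' : 0 < z.1 := by exact_mod_cast hz1
      have hbz := hbad z.1 z.2.1 (by omega)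
      rw [abs_of_pos hz1, show (z.1:ℝ)*ζ - z.2.1 = -((z.2.1:ℝ) - ζ * z.1) by ring, abs_neg] at hbz
      set y := |(z.2.1:ℝ) - ζ * z.1| with hy
      have hy0 : 0 < y := by
        by_contra hneg
        push Not at hneg
        nlinarith
      have hnζ : nrm ((q:ℝ) * ζ) = g * y := by
        unfold nrm
        rw [← hp', hpg', hqg, hy, ← abs_neg, ← abs_of_pos (lt_of_lt_of_le one_pos hgr), ← abs_mul,
          abs_of_pos (lt_of_lt_of_le one_pos hgr)]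
        congr 1
        ring
      have hnξ : nrm ((q:ℝ) * ξ) = g * (z.1 * |ξ - (z.2.2:ℝ)/z.1|) := by
        unfold nrm
        rw [← hp, hpg, ← mul_assoc, ← hqg]
        have : |ξ - (z.2.2:ℝ)/z.1| * q = |(ξ - (z.2.2:ℝ)/z.1) * q| := by
          rw [abs_mul, abs_of_pos hqr]
        rw [mul_comm (q:ℝ) |ξ - (z.2.2:ℝ)/z.1|, this, hqg]
        congr 1
        field_simp
      have hy1 : y < 1 := by
        have := nrm_le_half ((q:ℝ) * ζ)
        rw [hnζ] at this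
        nlinarith
      have hzQ : (z.1:ℝ) ≤ ((2:ℝ)^(C*5^N))^4 := by
        rw [← hQe]
        have h6 : (z.1:ℝ) ≤ q := by rw [hqg]; nlinarith
        have h7 : (q:ℝ) ≤ ((16^(C*5^N) : ℕ):ℝ) := by exact_mod_cast hqQ
        linarith
      have h4 := hP N z hz hz1' hzQ hy1
      simp only [thP] at h4
      rw [← hy] at h4
      set A := (2:ℝ)^(C*5^N) with hA
      have hA0 : 0 < A := by rw [hA]; positivity
      clear_value A
      rw [hnζ, hnξ, hQe]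
      set t := |ξ - (z.2.2:ℝ)/z.1| with ht
      have ht0 : 0 ≤ t := abs_nonneg _
      rw [div_le_iff₀ (by positivity)] at h4
      calc ε ≤ t * (A^4 * z.1 * y) := h4
        _ = A^4 * (z.1 * t * y) * (1 * 1) := by ring
        _ ≤ A^4 * (z.1 * t * y) * (g * g) := by gcongr
        _ = A^4 * ((g * (z.1 * t)) * (g * y)) := by ring

lemma sqrt_two_bad : BadlyApproximable (Real.sqrt 2) := by
  refine ⟨1/4, by norm_num, ?_⟩
  intro q hq
  have hq1 : (1:ℝ) ≤ q := by exact_mod_cast hq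
  set s := Real.sqrt 2 with hs
  have hs2 : s^2 = 2 := Real.sq_sqrt (by norm_num)
  have hs0 : 0 ≤ s := Real.sqrt_nonneg 2
  have hs3 : s ≤ 3/2 := by nlinarith
  set p : ℤ := round ((q:ℝ) * s) with hp
  have h1 : nrm ((q:ℝ) * s) = |(q:ℝ) * s - p| := rfl
  have h2 : |(q:ℝ) * s - p| ≤ 1/2 := by rw [← h1]; exact nrm_le_half _
  rw [h1]
  have h3 : |((q:ℝ) * s + p)| ≤ 4 * q := by
    rw [abs_le] at h2 ⊢
    constructor <;> nlinarith
  have h4 : (1:ℝ) ≤ |(q:ℝ) * s - p| * |((q:ℝ) * s + p)| := by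
    rw [← abs_mul]
    have e : ((q:ℝ) * s - p) * ((q:ℝ) * s + p) = ((2 * (q:ℤ)^2 - p^2 : ℤ):ℝ) := by
      push_cast
      linear_combination (q:ℝ)^2 * hs2
    rw [e]
    have hne : (2 * (q:ℤ)^2 - p^2 : ℤ) ≠ 0 := by
      intro h0
      have h5 : Irrational s := irrational_sqrt_two
      refine h5 ⟨(|p| : ℤ) / (q:ℤ), ?_⟩
      have h6 : (q:ℝ)^2 * s^2 = (p:ℝ)^2 := by
        rw [hs2]
        have : ((2 * (q:ℤ)^2 - p^2 : ℤ):ℝ) = 0 := by rw [h0]; simp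
        push_cast at this
        linarith
      have h7 : (q:ℝ) * s = |(p:ℝ)| := by
        rw [← abs_of_nonneg (by positivity : 0 ≤ (q:ℝ) * s)]
        rw [← sq_eq_sq_iff_abs_eq_abs, mul_pow]
        exact h6
      push_cast
      rw [div_eq_iff (by positivity)]
      linarith
    have := Int.one_le_abs hne
    exact_mod_cast this
  have h5 : 0 ≤ |(q:ℝ) * s - p| := abs_nonneg _
  nlinarith

/-- For every badly approximable `ζ` there is a badly approximable `ξ` with `D(ξ, ζ) > 0`; and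
badly approximable numbers exist, so both questions have a positive answer. -/
theorem result :
    (∃ ξ ζ : ℝ, BadlyApproximable ξ ∧ BadlyApproximable ζ ∧ 0 < D ξ ζ) ∧
    (∀ ζ : ℝ, BadlyApproximable ζ → ∃ ξ : ℝ, BadlyApproximable ξ ∧ 0 < D ξ ζ) := by
  refine ⟨?_, exists_of_bad⟩
  obtain ⟨ξ, h1, h2⟩ := exists_of_bad (Real.sqrt 2) sqrt_two_bad
  exact ⟨ξ, Real.sqrt 2, h1, sqrt_two_bad, h2⟩

end Pool.Agent.Results.MP_294a04_nt.UniformLittlewoodBadPairs
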